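import Pool.Agent.Helper51.RP.Goals1
import Pool.Agent.Helper13.RS.P1

/-!
# Project RP, packet P1
-/

namespace Pool.Agent.Helper9.RP

open NumberField Polynomial Module IsDedekindDomain TensorProduct Pool.Agent.Helper51.SigLeo
  Pool.Agent.Helper51.RP

open Pool.Agent.Helper13.RS (bc bc_comp bc_sub bc_id extHom_bc el el_inj el_add el_zero el_nsmul
  el_unitsHom el_sum el_iter iter_add)

section units

variable {K H : Type} [Field K] [Field H] [Algebra K H]

/-- The units of norm `1`. -/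
noncomputable def UU (p : ℕ) (γ : H ≃ₐ[K] H) : AddSubgroup (Additive (𝓞 H)ˣ) where
  carrier := {u | ∑ j ∈ Finset.range p, (unitsHom γ)^[j] u = 0}
  zero_mem' := by
    change ∑ j ∈ Finset.range p, (unitsHom γ)^[j] 0 = 0
    apply Finset.sum_eq_zero
    intro j _
    exact iterate_map_zero (unitsHom γ) j
  add_mem' := by
    intro a b ha hb
    change ∑ j ∈ Finset.range p, (unitsHom γ)^[j] (a + b) = 0
    simp only [iter_add]
    rw [Finset.sum_add_distrib]
    change ∑ j ∈ Finset.range p, (unitsHom γ)^[j] a = 0 at ha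
    change ∑ j ∈ Finset.range p, (unitsHom γ)^[j] b = 0 at hb
    rw [ha, hb, add_zero]
  neg_mem' := by
    intro a ha
    change ∑ j ∈ Finset.range p, (unitsHom γ)^[j] (-a) = 0
    change ∑ j ∈ Finset.range p, (unitsHom γ)^[j] a = 0 at ha
    have h : ∀ j, (unitsHom γ)^[j] (-a) = -(unitsHom γ)^[j] a :=
      fun j => iterate_map_neg (unitsHom γ) j a
    simp only [h]
    rw [Finset.sum_neg_distrib, ha, neg_zero]

theorem mem_UU {p : ℕ} {γ : H ≃ₐ[K] H} {u : Additive (𝓞 H)ˣ} :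
    u ∈ UU p γ ↔ ∑ j ∈ Finset.range p, (unitsHom γ)^[j] u = 0 := Iff.rfl

theorem mem_UU' {p : ℕ} {γ : H ≃ₐ[K] H} {u : Additive (𝓞 H)ˣ} :
    u ∈ UU p γ ↔ ∏ j ∈ Finset.range p, (γ ^ j) (el u) = 1 := by
  rw [mem_UU]
  constructor
  · intro h
    have h1 := congrArg el h
    rw [el_sum, el_zero] at h1
    simpa only [el_iter] using h1
  · intro h
    apply el_inj
    rw [el_sum, el_zero]
    simpa only [el_iter] using h

theorem fin_UU [NumberField H] (p : ℕ) (γ : H ≃ₐ[K] H) : Module.Finite ℤ (UU p γ) := by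
  have h1 : Module.Finite ℤ (Additive (𝓞 H)ˣ) := inferInstance
  have h2 : IsNoetherian ℤ (Additive (𝓞 H)ˣ) := inferInstance
  exact Module.Finite.of_injective (UU p γ).subtype.toIntLinearMap Subtype.val_injective

theorem sum_telescope {p : ℕ} {γ : H ≃ₐ[K] H} (hγ : γ ^ p = 1) (u : Additive (𝓞 H)ˣ) :
    unitsHom γ u - u ∈ UU p γ := by
  rw [mem_UU]
  have h : ∀ j, (unitsHom γ)^[j] (unitsHom γ u - u) =
      (unitsHom γ)^[j + 1] u - (unitsHom γ)^[j] u := by
    intro j
    rw [iterate_map_sub (unitsHom γ) j, Function.iterate_succ_apply]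
  simp only [h]
  rw [Finset.sum_range_sub (fun j => (unitsHom γ)^[j] u)]
  rw [Function.iterate_zero, id_eq]
  have h2 : (unitsHom γ)^[p] u = u := by
    apply el_inj
    rw [el_iter, hγ, AlgEquiv.one_apply]
  rw [h2, sub_self]

end units

/-- Shift of the sequence. -/
theorem shift {A : Type} [AddCommGroup A] (δ γ : A →+ A) (hc : ∀ x, δ (γ x) = γ (δ x))
    (S : Finset ℕ) (w : ℕ → ℕ) (u : ℕ → A)
    (h1 : ∀ N, ∃ b, u N = u 0 + (γ b - b)) (h2 : ¬ ∃ b, u 0 = γ b - b)
    (h3 : ∃ b, ∑ j ∈ S, w j • δ^[j] (u 0) = γ b - b) (c : ℕ) :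
    (∀ N, ∃ b, u (N + c) + b = u (0 + c) + γ b) ∧ (¬ ∃ b, u (0 + c) + b = γ b) ∧
      ∃ b, ∑ j ∈ S, w j • δ^[j] (u (0 + c)) + b = γ b := by
  simp only [Nat.zero_add]
  choose b hb using h1
  obtain ⟨b', hb'⟩ := h3
  have hcj : ∀ (j : ℕ) (x : A), δ^[j] (γ x) = γ (δ^[j] x) := by
    intro j
    induction j with
    | zero => intro x; rfl
    | succ j ih => intro x; rw [Function.iterate_succ_apply', ih, hc, Function.iterate_succ_apply']
  refine ⟨fun N => ⟨b (N + c) - b c, ?_⟩, ?_, ⟨b' + ∑ j ∈ S, w j • δ^[j] (b c), ?_⟩⟩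
  · have h4 := hb (N + c)
    have h5 := hb c
    rw [h4, h5, map_sub]
    abel
  · rintro ⟨t, ht⟩
    apply h2
    refine ⟨t - b c, ?_⟩
    have h5 := hb c
    have h6 : u c = γ t - t := by rw [← ht]; abel
    rw [h6] at h5
    have h7 : u 0 = γ t - t - (γ (b c) - b c) := by rw [h5]; abel
    rw [h7, map_sub]; abel
  · have h5 := hb c
    rw [h5]
    have h6 : ∀ j ∈ S, w j • δ^[j] (u 0 + (γ (b c) - b c)) =
        w j • δ^[j] (u 0) + (γ (w j • δ^[j] (b c)) - w j • δ^[j] (b c)) := by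
      intro j _
      rw [iter_add, iterate_map_sub δ j, hcj, map_nsmul, smul_add, smul_sub]
    rw [Finset.sum_congr rfl h6, Finset.sum_add_distrib, Finset.sum_sub_distrib, ← map_sum, hb',
      map_add]
    abel

theorem s_p1 (h1 : S_LA) (h2 : S_RAT) (h3 : S_HIL) : S_P1 := by
  intro p _ k _ _ _ _ hι L K M H M₁ H₁ _ _ _ _ _ _ _ _ _ _ _ _ _ _ _ _ _ m δ γ δ' γ₁ T ε a s ζ Φ P
    hPhi hH hTor hSel ε' hε' z hzγ hzδ hzL
  by_contra hz0
  have hp : p.Prime := Fact.out
  have hchar : CharZero k := charZero_of_injective_algebraMap (algebraMap ℚ_[p] k).injective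
  have hγp : γ ^ p = 1 := by rw [← hH.γo]; exact pow_orderOf_eq_one γ
  have hδm : δ' ^ m = 1 := by rw [← hH.δo]; exact pow_orderOf_eq_one δ'
  -- the maps
  have hq : ∀ u : Additive (𝓞 H)ˣ,
      (unitsHom γ - AddMonoidHom.id (Additive (𝓞 H)ˣ)) u ∈ UU p γ := by
    intro u
    rw [AddMonoidHom.sub_apply, AddMonoidHom.id_apply]
    exact sum_telescope hγp u
  have hcomm : ∀ u : Additive (𝓞 H)ˣ, unitsHom δ' (unitsHom γ u) = unitsHom γ (unitsHom δ' u) := by
    intro u
    apply el_inj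
    rw [el_unitsHom, el_unitsHom, el_unitsHom, el_unitsHom, hH.comm]
  have hcommj : ∀ (j : ℕ) (u : Additive (𝓞 H)ˣ),
      unitsHom δ' ((unitsHom γ)^[j] u) = (unitsHom γ)^[j] (unitsHom δ' u) := by
    intro j
    induction j with
    | zero => intro u; rfl
    | succ j ih =>
      intro u
      rw [Function.iterate_succ_apply', hcomm, ih, Function.iterate_succ_apply']
  have hd : ∀ u : UU p γ, unitsHom δ' (u : Additive (𝓞 H)ˣ) ∈ UU p γ := by
    intro u
    rw [mem_UU]
    simp only [← hcommj]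
    rw [← map_sum, mem_UU.1 u.2, map_zero]
  have hg : ∀ u : UU p γ, unitsHom γ (u : Additive (𝓞 H)ˣ) ∈ UU p γ := by
    intro u
    have h4 := (UU p γ).add_mem u.2 (sum_telescope hγp (u : Additive (𝓞 H)ˣ))
    rwa [add_sub_cancel] at h4
  let i : UU p γ →+ Additive (𝓞 H)ˣ := (UU p γ).subtype
  let q : Additive (𝓞 H)ˣ →+ UU p γ :=
    (unitsHom γ - AddMonoidHom.id (Additive (𝓞 H)ˣ)).codRestrict (UU p γ) hq
  let δU : UU p γ →+ UU p γ := ((unitsHom δ').comp i).codRestrict (UU p γ) hd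
  let γU : UU p γ →+ UU p γ := ((unitsHom γ).comp i).codRestrict (UU p γ) hg
  have hiq : i.comp q = unitsHom γ - AddMonoidHom.id (Additive (𝓞 H)ˣ) := rfl
  have hδq : δU.comp q = q.comp (unitsHom δ') := by
    apply DFunLike.ext
    intro u
    apply Subtype.ext
    change unitsHom δ' (unitsHom γ u - u) = unitsHom γ (unitsHom δ' u) - unitsHom δ' u
    rw [map_sub, hcomm]
  have hγq : γU.comp q = q.comp (unitsHom γ) := by
    apply DFunLike.ext
    intro u
    apply Subtype.ext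
    change unitsHom γ (unitsHom γ u - u) = unitsHom γ (unitsHom γ u) - unitsHom γ u
    rw [map_sub]
  have hi2 : bc k i (bc k q z) = (ε' - 1) • z := by
    rw [bc_comp, hiq, bc_sub, bc_id]
    have h4 : bc k (unitsHom γ) z = ε' • z := hzγ
    rw [h4, sub_smul, one_smul]
  have hε1 : ε' - 1 ≠ 0 := sub_ne_zero.2 (hε'.ne_one hp.one_lt)
  have hz' : bc k q z ≠ 0 := by
    intro h4
    rw [h4, map_zero] at hi2
    rcases smul_eq_zero.1 hi2.symm with h5 | h5
    · exact hε1 h5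
    · exact hz0 h5
  have hδz' : extEnd δU (bc k q z) = ζ • bc k q z := by
    have h4 : extEnd δU (bc k q z) = bc k δU (bc k q z) := rfl
    rw [h4, bc_comp, hδq, ← bc_comp]
    have h5 : bc k (unitsHom δ') z = ζ • z := hzδ
    rw [h5, map_smul]
  have hγz' : extEnd γU (bc k q z) = ε' • bc k q z := by
    have h4 : extEnd γU (bc k q z) = bc k γU (bc k q z) := rfl
    rw [h4, bc_comp, hγq, ← bc_comp]
    have h5 : bc k (unitsHom γ) z = ε' • z := hzγ
    rw [h5, map_smul]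
  have hγl : ∀ l : ℕ, (extEnd γU : (k ⊗[ℤ] UU p γ) →ₗ[k] (k ⊗[ℤ] UU p γ))^[l] (bc k q z) =
      ε' ^ l • bc k q z := by
    intro l
    induction l with
    | zero => rw [Function.iterate_zero, id_eq, pow_zero, one_smul]
    | succ l ih => rw [Function.iterate_succ_apply', ih, map_smul, hγz', smul_smul, pow_succ]
  -- iterates
  have hit : ∀ (j : ℕ) (u : UU p γ), ((δU^[j] u : UU p γ) : Additive (𝓞 H)ˣ) =
      (unitsHom δ')^[j] (u : Additive (𝓞 H)ˣ) := by
    intro j
    induction j with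
    | zero => intro u; rfl
    | succ j ih =>
      intro u
      rw [Function.iterate_succ_apply', Function.iterate_succ_apply', ← ih]
      rfl
  have hitγ : ∀ (j : ℕ) (u : UU p γ), ((γU^[j] u : UU p γ) : Additive (𝓞 H)ˣ) =
      (unitsHom γ)^[j] (u : Additive (𝓞 H)ˣ) := by
    intro j
    induction j with
    | zero => intro u; rfl
    | succ j ih =>
      intro u
      rw [Function.iterate_succ_apply', Function.iterate_succ_apply', ← ih]
      rfl
  have hδUm : ∀ u : UU p γ, δU^[m] u = u := by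
    intro u
    apply Subtype.ext
    rw [hit]
    apply el_inj
    rw [el_iter, hδm, AlgEquiv.one_apply]
  have hcU : ∀ u : UU p γ, δU (γU u) = γU (δU u) := by
    intro u
    apply Subtype.ext
    exact hcomm _
  have hsumU : ∀ u : UU p γ, ∑ j ∈ Finset.range p, γU^[j] u = 0 := by
    intro u
    apply Subtype.ext
    rw [AddSubgroup.val_finsetSum]
    simp only [hitγ]
    exact mem_UU.1 u.2
  obtain ⟨i₀, hi₀, htor⟩ := hTor
  have hppow : ∀ (u : UU p γ) (n : ℕ), p ^ n • u = 0 → δU u = i₀ • u := by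
    intro u n hu
    apply Subtype.ext
    apply el_inj
    rw [AddSubgroup.coe_nsmul, el_nsmul]
    change el (unitsHom δ' (u : Additive (𝓞 H)ˣ)) = _
    rw [el_unitsHom]
    apply htor _ n
    rw [← el_nsmul]
    have h4 := congrArg (Subtype.val) hu
    rw [AddSubgroup.coe_nsmul, AddSubgroup.coe_zero] at h4
    rw [h4, el_zero]
  -- rationality
  have hcl : PlaceClosed (above (above T : Set (M →+* k)) : Set (H →+* k)) := by
    intro σ τ hστ
    apply hH.closed
    intro x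
    exact hστ _
  obtain ⟨n, f, hf0, hfc⟩ := h2 p k hι L H _ hcl
  have hf0z := hf0 z hzL
  have hfin := fin_UU p γ
  obtain ⟨u, hu1, hu2, hu3, hu4⟩ := h1 p k m ζ Φ P hPhi (UU p γ) δU γU i₀ hδUm hcU hsumU hppow hi₀
    (Fin n) (fun j => (f j).comp i) (bc k q z) hz' hδz' (by
      intro j l
      rw [hγl, map_smul]
      have h4 := extHom_bc (k := k) i
        (((algebraMap ℚ_[p] k : ℚ_[p] →+* k) : ℚ_[p] →+ k).comp (f j)) (bc k q z)
      rw [hi2, map_smul, hf0z j, smul_zero] at h4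
      have h5 : extHom (((algebraMap ℚ_[p] k : ℚ_[p] →+* k) : ℚ_[p] →+ k).comp ((f j).comp i))
          (bc k q z) = 0 := h4.symm
      rw [h5, smul_zero])
  -- the constant
  have hfinE : Finite (H →+* k) := by
    have : Finite (H →ₐ[ℚ] k) := inferInstance
    exact Finite.of_injective (fun f : H →+* k => f.toRatAlgHom) (fun f g h => by
      ext x; exact DFunLike.congr_fun h x)
  have hp1 : (1 : ℝ) < p := by exact_mod_cast hp.one_lt
  have hp0 : (p : ℝ) ≠ 0 := by positivity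
  choose! C hC using hfc
  obtain ⟨c, hc⟩ : ∃ c : ℕ, ∀ τ : H →+* k, ∑ j, ‖C τ j‖ ≤ (p : ℝ) ^ c := by
    have : Fintype (H →+* k) := Fintype.ofFinite _
    obtain ⟨c, hc⟩ := pow_unbounded_of_one_lt (∑ τ : H →+* k, ∑ j, ‖C τ j‖) hp1
    refine ⟨c, fun τ => le_trans ?_ hc.le⟩
    exact Finset.single_le_sum (f := fun τ : H →+* k => ∑ j, ‖C τ j‖)
      (fun _ _ => Finset.sum_nonneg fun _ _ => norm_nonneg _) (Finset.mem_univ τ)
  obtain ⟨hv1, hv2, hv3⟩ := shift δU γU hcU P.support (fun j => (P.coeff j).val) u hu1 hu2 hu3 c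
  obtain ⟨x, hx, hxs⟩ := h3 p k hι L K M H M₁ H₁ m δ γ δ' γ₁ T ε a s P hH
    (fun N => ((u (N + c) : UU p γ) : Additive (𝓞 H)ˣ).toMul)
    (fun N => mem_UU'.1 (u (N + c)).2)
    (by
      intro N
      obtain ⟨b, hb⟩ := hv1 N
      refine ⟨(b : Additive (𝓞 H)ˣ).toMul, mem_UU'.1 b.2, ?_⟩
      have h5 := congrArg (fun v : UU p γ => el (v : Additive (𝓞 H)ˣ)) hb
      beta_reduce at h5
      rw [AddSubgroup.coe_add, AddSubgroup.coe_add, el_add, el_add] at h5
      exact h5)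
    (by
      obtain ⟨b, hb⟩ := hv3
      refine ⟨(b : Additive (𝓞 H)ˣ).toMul, mem_UU'.1 b.2, ?_⟩
      have h5 := congrArg (fun v : UU p γ => el (v : Additive (𝓞 H)ˣ)) hb
      beta_reduce at h5
      rw [AddSubgroup.coe_add, el_add, AddSubgroup.val_finsetSum, el_sum] at h5
      simp only [AddSubgroup.coe_nsmul, el_nsmul, hit, el_iter] at h5
      exact h5)
    (by
      intro N l τ hτ
      have h4 := hC τ hτ ((unitsHom γ)^[l] ((u (N + c) : UU p γ) : Additive (𝓞 H)ˣ))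
      change ‖logUnits L τ ((unitsHom γ)^[l] ((u (N + c) : UU p γ) : Additive (𝓞 H)ˣ))‖ ≤ _
      rw [h4]
      have h6 : ∀ j, ‖f j ((unitsHom γ)^[l] ((u (N + c) : UU p γ) : Additive (𝓞 H)ˣ))‖ ≤
          (1 / p : ℝ) ^ (N + c) := by
        intro j
        rw [← hitγ]
        exact hu4 (N + c) j l
      calc ‖∑ j, f j ((unitsHom γ)^[l] ((u (N + c) : UU p γ) : Additive (𝓞 H)ˣ)) • C τ j‖
          ≤ ∑ j, ‖f j ((unitsHom γ)^[l] ((u (N + c) : UU p γ) : Additive (𝓞 H)ˣ)) • C τ j‖ :=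
            norm_sum_le _ _
        _ ≤ ∑ j, (1 / p : ℝ) ^ (N + c) * ‖C τ j‖ := by
            apply Finset.sum_le_sum
            intro j _
            rw [norm_smul]
            exact mul_le_mul_of_nonneg_right (h6 j) (norm_nonneg _)
        _ = (1 / p : ℝ) ^ (N + c) * ∑ j, ‖C τ j‖ := by rw [Finset.mul_sum]
        _ ≤ (1 / p : ℝ) ^ (N + c) * (p : ℝ) ^ c := by
            exact mul_le_mul_of_nonneg_left (hc τ) (by positivity)
        _ = (1 / p : ℝ) ^ N := by
            rw [pow_add, mul_assoc, ← mul_pow, one_div_mul_cancel hp0, one_pow, mul_one])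
  obtain ⟨t, ht1, ht2⟩ := hxs (hSel x hx)
  apply hv2
  have ht : Additive.ofMul t ∈ UU p γ := mem_UU'.2 ht1
  refine ⟨⟨Additive.ofMul t, ht⟩, ?_⟩
  apply Subtype.ext
  apply el_inj
  rw [AddSubgroup.coe_add, el_add]
  exact ht2

end Pool.Agent.Helper9.RP
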