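import Pool.Agent.Helper43.RP.Goals

/-!
Packet RP-CUP (MP_f5847d_nt): upper bound for the number of lattice points in a simplex.
-/

set_option autoImplicit false

namespace Pool.Agent.Helper9.RP.CUP

open Finset

theorem pow_step (u b : ℝ) (hu : 0 ≤ u) (hb : 0 ≤ b) (m : ℕ) :
    u ^ (m + 1) + ((m : ℝ) + 1) * b * u ^ m ≤ (u + b) ^ (m + 1) := by
  induction m with
  | zero => simp
  | succ m ih =>
    have h1 : (u + b) ^ (m + 1 + 1) = (u + b) * (u + b) ^ (m + 1) := by ring
    have h2 : (u + b) * (u ^ (m + 1) + ((m : ℝ) + 1) * b * u ^ m) ≤ (u + b) * (u + b) ^ (m + 1) :=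
      mul_le_mul_of_nonneg_left ih (by linarith)
    have h3 : 0 ≤ ((m : ℝ) + 1) * b ^ 2 * u ^ m := by positivity
    rw [h1]
    push_cast
    have h4 : (u + b) * (u ^ (m + 1) + ((m : ℝ) + 1) * b * u ^ m) =
        u ^ (m + 1 + 1) + ((m : ℝ) + 1 + 1) * b * u ^ (m + 1) + ((m : ℝ) + 1) * b ^ 2 * u ^ m := by
      ring
    linarith

theorem t : Pool.Agent.Helper43.RP.CUP := by
  intro m
  induction m with
  | zero =>
    intro β T _ _
    exact ⟨Finset.univ, fun b _ => Finset.mem_univ b, by simp⟩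
  | succ m ih =>
    intro β T hβ hT
    have hβ0 : 0 < β 0 := hβ 0
    have hβ' : ∀ i : Fin m, 0 < β i.succ := fun i => hβ _
    set σ : ℝ := ∑ i : Fin m, β i.succ with hσ
    have hσ0 : 0 ≤ σ := Finset.sum_nonneg fun i _ => (hβ' i).le
    set P : ℝ := ∏ i : Fin m, β i.succ with hP
    have hP0 : 0 < P := Finset.prod_pos fun i _ => hβ' i
    have hex : ∀ x : ℕ, ∃ B : Finset (Fin m → ℕ), (x : ℝ) * β 0 ≤ T →
        (∀ b : Fin m → ℕ, ∑ i, (b i : ℝ) * β i.succ < T - x * β 0 → b ∈ B) ∧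
        (B.card : ℝ) * ((m.factorial : ℝ) * P) ≤ (T - x * β 0 + σ) ^ m := by
      intro x
      by_cases h : (x : ℝ) * β 0 ≤ T
      · obtain ⟨B, h1, h2⟩ := ih (fun i => β i.succ) (T - x * β 0) hβ' (by linarith)
        exact ⟨B, fun _ => ⟨h1, h2⟩⟩
      · exact ⟨∅, fun h' => absurd h' h⟩
    choose Bf hBf using hex
    let N : ℕ := ⌊T / β 0⌋₊ + 1
    have hxN : ∀ x : ℕ, x < N → (x : ℝ) * β 0 ≤ T := by
      intro x hx
      have h1 : x ≤ ⌊T / β 0⌋₊ := Nat.lt_succ_iff.mp hx
      have h2 : (x : ℝ) ≤ T / β 0 := (Nat.le_floor_iff (by positivity)).mp h1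
      exact (le_div_iff₀ hβ0).mp h2
    have hNx : ∀ x : ℕ, (x : ℝ) * β 0 ≤ T → x < N := by
      intro x hx
      have h2 : (x : ℝ) ≤ T / β 0 := (le_div_iff₀ hβ0).mpr hx
      exact Nat.lt_succ_of_le ((Nat.le_floor_iff (by positivity)).mpr h2)
    refine ⟨(Finset.range N).biUnion fun x => (Bf x).image (fun b => Fin.cons x b), ?_, ?_⟩
    · intro b hb
      rw [Fin.sum_univ_succ] at hb
      have h0 : 0 ≤ ∑ i : Fin m, (b i.succ : ℝ) * β i.succ :=
        Finset.sum_nonneg fun i _ => mul_nonneg (Nat.cast_nonneg _) (hβ' i).le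
      have h1 : (b 0 : ℝ) * β 0 ≤ T := by linarith
      rw [Finset.mem_biUnion]
      refine ⟨b 0, Finset.mem_range.mpr (hNx _ h1), ?_⟩
      rw [Finset.mem_image]
      refine ⟨fun i => b i.succ, (hBf (b 0) h1).1 _ (by linarith), ?_⟩
      exact Fin.cons_self_tail b
    · have hcard : (((Finset.range N).biUnion
          fun x => (Bf x).image (fun b => (Fin.cons x b : Fin (m + 1) → ℕ))).card : ℝ) ≤
          ∑ x ∈ Finset.range N, ((Bf x).card : ℝ) := by
        have h1 := Finset.card_biUnion_le (s := Finset.range N)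
          (t := fun x => (Bf x).image (fun b => (Fin.cons x b : Fin (m + 1) → ℕ)))
        have h2 : ∑ x ∈ Finset.range N,
            ((Bf x).image (fun b => (Fin.cons x b : Fin (m + 1) → ℕ))).card ≤
            ∑ x ∈ Finset.range N, (Bf x).card :=
          Finset.sum_le_sum fun x _ => Finset.card_image_le
        exact_mod_cast h1.trans h2
      have hfac : ((m + 1).factorial : ℝ) = ((m : ℝ) + 1) * (m.factorial : ℝ) := by
        rw [Nat.factorial_succ]
        push_cast
        ring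
      have hprod : ∏ i, β i = β 0 * P := Fin.prod_univ_succ β
      have hsum : ∑ i, β i = β 0 + σ := Fin.sum_univ_succ β
      rw [hfac, hprod, hsum]
      let U : ℕ → ℝ := fun x => T + (β 0 + σ) - x * β 0
      have hU0 : U 0 = T + (β 0 + σ) := by simp [U]
      have hUN : 0 ≤ U N := by
        have h1 : ((⌊T / β 0⌋₊ : ℕ) : ℝ) * β 0 ≤ T := hxN _ (Nat.lt_succ_self _)
        change 0 ≤ T + (β 0 + σ) - ((⌊T / β 0⌋₊ + 1 : ℕ) : ℝ) * β 0
        push_cast
        linarith
      have hterm : ∀ x ∈ Finset.range N,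
          ((Bf x).card : ℝ) * (((m : ℝ) + 1) * (m.factorial : ℝ) * (β 0 * P)) ≤
            U x ^ (m + 1) - U (x + 1) ^ (m + 1) := by
        intro x hx
        have hx1 := hxN x (Finset.mem_range.mp hx)
        have h1 := (hBf x hx1).2
        have hu : 0 ≤ T - x * β 0 + σ := by linarith
        have h2 := pow_step (T - x * β 0 + σ) (β 0) hu hβ0.le m
        have h3 : U (x + 1) = T - x * β 0 + σ := by
          change T + (β 0 + σ) - ((x + 1 : ℕ) : ℝ) * β 0 = _
          push_cast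
          ring
        have h4 : U x = T - x * β 0 + σ + β 0 := by
          change T + (β 0 + σ) - (x : ℝ) * β 0 = _
          ring
        rw [h3, h4]
        have h5 : ((Bf x).card : ℝ) * (((m : ℝ) + 1) * (m.factorial : ℝ) * (β 0 * P)) =
            (((m : ℝ) + 1) * β 0) * (((Bf x).card : ℝ) * ((m.factorial : ℝ) * P)) := by ring
        rw [h5]
        have h6 : (((m : ℝ) + 1) * β 0) * (((Bf x).card : ℝ) * ((m.factorial : ℝ) * P)) ≤
            (((m : ℝ) + 1) * β 0) * (T - x * β 0 + σ) ^ m :=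
          mul_le_mul_of_nonneg_left h1 (by positivity)
        linarith
      have htel : ∑ x ∈ Finset.range N, (U x ^ (m + 1) - U (x + 1) ^ (m + 1)) =
          U 0 ^ (m + 1) - U N ^ (m + 1) :=
        Finset.sum_range_sub' (fun x => U x ^ (m + 1)) N
      have hpos : 0 ≤ ((m : ℝ) + 1) * (m.factorial : ℝ) * (β 0 * P) := by positivity
      calc _ ≤ (∑ x ∈ Finset.range N, ((Bf x).card : ℝ)) *
            (((m : ℝ) + 1) * (m.factorial : ℝ) * (β 0 * P)) :=
            mul_le_mul_of_nonneg_right hcard hpos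
        _ = ∑ x ∈ Finset.range N,
            ((Bf x).card : ℝ) * (((m : ℝ) + 1) * (m.factorial : ℝ) * (β 0 * P)) :=
            Finset.sum_mul _ _ _
        _ ≤ ∑ x ∈ Finset.range N, (U x ^ (m + 1) - U (x + 1) ^ (m + 1)) :=
            Finset.sum_le_sum hterm
        _ = U 0 ^ (m + 1) - U N ^ (m + 1) := htel
        _ ≤ U 0 ^ (m + 1) := by
            have := pow_nonneg hUN (m + 1)
            linarith
        _ = (T + (β 0 + σ)) ^ (m + 1) := by rw [hU0]

end Pool.Agent.Helper9.RP.CUP
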