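import Pool.Agent.Helper26.RP.Goals

set_option autoImplicit false

noncomputable section

namespace RP.PkFEK

open MeasureTheory Filter Topology RP

theorem fek : G_FEK := by
  intro φ C hC hφ hsup
  set B : ℝ := 2 * C * Real.log 3 with hB
  have hlog3 : 0 ≤ Real.log 3 := Real.log_nonneg (by norm_num)
  have hB0 : 0 ≤ B := by positivity
  set f : ℕ → ℝ := fun s => φ (s - 6) - C * Real.log s - B with hf
  -- claim 1
  have c1 : ∀ s t : ℕ, 9 ≤ s → 9 ≤ t → s ≤ 2 * t → t ≤ 2 * s → f s + f t ≤ f (s + t) := by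
    intro s t hs ht hst hts
    obtain ⟨a, rfl⟩ : ∃ a, s = a + 6 := ⟨s - 6, by omega⟩
    obtain ⟨b, rfl⟩ : ∃ b, t = b + 6 := ⟨t - 6, by omega⟩
    have h1 := hsup a b (by omega) (by omega) (by omega) (by omega)
    have e1 : a + 6 + (b + 6) - 6 = a + b + 6 := by omega
    simp only [hf, e1, Nat.add_sub_cancel]
    have ha : (3:ℝ) ≤ a := by exact_mod_cast (by omega : 3 ≤ a)
    have hb : (3:ℝ) ≤ b := by exact_mod_cast (by omega : 3 ≤ b)
    have hst' : ((a:ℝ) + 6) ≤ 2 * (b + 6) := by exact_mod_cast hst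
    have hts' : ((b:ℝ) + 6) ≤ 2 * (a + 6) := by exact_mod_cast hts
    have l1 : Real.log ((a:ℝ) + b) ≤ Real.log 3 + Real.log ((a:ℝ) + 6) := by
      rw [← Real.log_mul (by norm_num) (by positivity)]
      exact Real.log_le_log (by linarith) (by linarith)
    have l2 : Real.log ((a:ℝ) + 6 + (b + 6)) ≤ Real.log 3 + Real.log ((b:ℝ) + 6) := by
      rw [← Real.log_mul (by norm_num) (by positivity)]
      exact Real.log_le_log (by linarith) (by linarith)
    push_cast
    have l3 := mul_le_mul_of_nonneg_left (add_le_add l1 l2) hC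
    rw [hB]
    nlinarith
  -- claim 2
  have c2 : ∀ m : ℕ, 9 ≤ m → ∀ k : ℕ, 1 ≤ k → ∀ r : ℕ, r ≤ m →
      ((k:ℝ) - 1) * f m + f (m + r) ≤ f (k * m + r) := by
    intro m hm k
    induction k using Nat.strong_induction_on with
    | _ k ih =>
      intro hk r hr
      rcases Nat.lt_or_ge 1 k with h2 | h2
      · obtain ⟨k1, hk1⟩ : ∃ k1, k1 = k / 2 := ⟨_, rfl⟩
        obtain ⟨k2, hk2⟩ : ∃ k2, k2 = k - k1 := ⟨_, rfl⟩
        have h1k1 : 1 ≤ k1 := by omega
        have hk12 : k1 ≤ k2 := by omega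
        have hk21 : k2 ≤ k1 + 1 := by omega
        have hk1k : k1 < k := by omega
        have hk2k : k2 < k := by omega
        have hsum : k = k1 + k2 := by omega
        have i1 := ih k1 hk1k h1k1 r hr
        have i2 := ih k2 hk2k (by omega) 0 (by omega)
        have hm1 : m ≤ k1 * m := Nat.le_mul_of_pos_left m (by omega)
        have hm2 : m ≤ k2 * m := Nat.le_mul_of_pos_left m (by omega)
        have hm3 : k1 * m ≤ k2 * m := Nat.mul_le_mul_right m hk12
        have hm4 : k2 * m ≤ k1 * m + m := by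
          calc k2 * m ≤ (k1 + 1) * m := Nat.mul_le_mul_right m hk21
            _ = k1 * m + m := by ring
        have i3 := c1 (k1 * m + r) (k2 * m) (by omega) (by omega) (by omega) (by omega)
        have e1 : k * m + r = k1 * m + r + k2 * m := by rw [hsum]; ring
        rw [e1]
        refine le_trans ?_ i3
        simp only [add_zero] at i2
        have e2 : ((k:ℝ)) = (k1:ℝ) + (k2:ℝ) := by rw [hsum]; push_cast; ring
        rw [e2]
        linarith
      · have : k = 1 := by omega
        subst this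
        simp
  -- upper bound
  have c3 : ∀ n : ℕ, 9 ≤ n → f n ≤ C * n := by
    intro n hn
    have h1 := (hφ (n - 6) (by omega)).2
    have h2 : ((n - 6 : ℕ):ℝ) ≤ n := by exact_mod_cast Nat.sub_le n 6
    have h3 : 0 ≤ Real.log n := Real.log_nonneg (by exact_mod_cast (by omega : 1 ≤ n))
    have h4 : 0 ≤ C * Real.log n := mul_nonneg hC h3
    have h5 : C * ((n - 6 : ℕ):ℝ) ≤ C * n := mul_le_mul_of_nonneg_left h2 hC
    simp only [hf]
    linarith
  set S : Set ℝ := {y | ∃ m : ℕ, 9 ≤ m ∧ y = f m / m} with hS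
  have hSb : BddAbove S := by
    refine ⟨C, ?_⟩
    rintro y ⟨m, hm, rfl⟩
    have hm0 : (0:ℝ) < m := by exact_mod_cast (by omega : 0 < m)
    rw [div_le_iff₀ hm0]
    exact c3 m hm
  have hSn : S.Nonempty := ⟨f 9 / (9:ℕ), 9, le_rfl, rfl⟩
  set L := sSup S with hL
  have hlim : Tendsto (fun n : ℕ => f n / n) atTop (𝓝 L) := by
    rw [tendsto_order]
    constructor
    · intro a ha
      obtain ⟨y, ⟨m, hm, rfl⟩, hay⟩ := exists_lt_of_lt_csSup hSn ha
      set D : ℝ := ∑ r ∈ Finset.range m, |f (m + r)| with hD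
      have hm0 : (0:ℝ) < m := by exact_mod_cast (by omega : 0 < m)
      have hDr : ∀ r < m, -D ≤ f (m + r) := by
        intro r hr
        have h1 : |f (m + r)| ≤ D :=
          Finset.single_le_sum (f := fun r => |f (m + r)|) (fun _ _ => abs_nonneg _)
            (Finset.mem_range.mpr hr)
        have h2 := neg_abs_le (f (m + r))
        linarith
      have hsmall : ∀ᶠ n : ℕ in atTop, (2 * |f m| + D) / n < f m / m - a := by
        have h1 := tendsto_const_div_atTop_nhds_zero_nat (2 * |f m| + D)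
        exact (tendsto_order.1 h1).2 _ (by linarith)
      filter_upwards [hsmall, eventually_ge_atTop m] with n hn hnm
      have hn0 : (0:ℝ) < n := by exact_mod_cast (by omega : 0 < n)
      have hk1 : 1 ≤ n / m := (Nat.one_le_div_iff (by omega)).mpr hnm
      have hr : n % m < m := Nat.mod_lt n (by omega)
      have h1 := c2 m hm (n / m) hk1 (n % m) hr.le
      have e1 : n / m * m + n % m = n := by
        rw [mul_comm]; exact Nat.div_add_mod n m
      rw [e1] at h1
      have h2 := hDr (n % m) hr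
      have e2 : ((n / m : ℕ):ℝ) * m + ((n % m : ℕ):ℝ) = n := by exact_mod_cast e1
      have hr' : ((n % m : ℕ):ℝ) ≤ m := by exact_mod_cast hr.le
      have hr0 : (0:ℝ) ≤ ((n % m : ℕ):ℝ) := Nat.cast_nonneg _
      -- (k-1) f m = (n - r - m) * (f m / m)
      have e3 : (((n / m : ℕ):ℝ) - 1) * f m = (n - ((n % m : ℕ):ℝ) - m) * (f m / m) := by
        have : (((n / m : ℕ):ℝ) - 1) * m = n - ((n % m : ℕ):ℝ) - m := by linarith
        rw [← this]
        field_simp
      rw [e3] at h1
      have h3 : (((n % m : ℕ):ℝ) + m) * (f m / m) ≤ 2 * |f m| := by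
        have h4 : f m / m ≤ |f m| / m := by
          gcongr
          exact le_abs_self _
        calc (((n % m : ℕ):ℝ) + m) * (f m / m) ≤ (((n % m : ℕ):ℝ) + m) * (|f m| / m) := by
              gcongr
          _ ≤ (m + m) * (|f m| / m) := by gcongr
          _ = 2 * |f m| := by field_simp; ring
      have h5 : n * (f m / m) - 2 * |f m| - D ≤ f n := by linarith
      rw [div_lt_iff₀ hn0] at hn
      rw [lt_div_iff₀ hn0]
      linarith
    · intro a ha
      filter_upwards [eventually_ge_atTop 9] with n hn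
      exact lt_of_le_of_lt (le_csSup hSb ⟨n, hn, rfl⟩) ha
  -- the limit of `φ n / n`
  have hlim2 : Tendsto (fun n : ℕ => φ n / n) atTop (𝓝 L) := by
    have h1 : Tendsto (fun n : ℕ => f (n + 6) / ((n + 6 : ℕ):ℝ)) atTop (𝓝 L) :=
      hlim.comp (tendsto_add_atTop_nat 6)
    have h2 : Tendsto (fun n : ℕ => ((n + 6 : ℕ):ℝ) / n) atTop (𝓝 1) := by
      have h3 : Tendsto (fun n : ℕ => 1 + 6 / (n:ℝ)) atTop (𝓝 (1 + 0)) :=
        tendsto_const_nhds.add (tendsto_const_div_atTop_nhds_zero_nat 6)
      rw [add_zero] at h3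
      refine h3.congr' ?_
      filter_upwards [eventually_gt_atTop 0] with n hn
      have hn0 : (0:ℝ) < n := by exact_mod_cast hn
      push_cast
      field_simp
    have h4 : Tendsto (fun n : ℕ => Real.log ((n + 6 : ℕ):ℝ) / ((n + 6 : ℕ):ℝ)) atTop (𝓝 0) := by
      have h5 : Tendsto (fun x : ℝ => Real.log x / x) atTop (𝓝 0) := by
        have := Real.isLittleO_log_id_atTop.tendsto_div_nhds_zero
        simpa using this
      exact (h5.comp tendsto_natCast_atTop_atTop).comp (tendsto_add_atTop_nat 6)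
    have h6 : Tendsto (fun n : ℕ => B / ((n + 6 : ℕ):ℝ)) atTop (𝓝 0) :=
      (tendsto_const_div_atTop_nhds_zero_nat B).comp (tendsto_add_atTop_nat 6)
    have h7 := (((h1.add (h4.const_mul C)).add h6).mul h2)
    simp only [mul_zero, add_zero, mul_one] at h7
    refine h7.congr' ?_
    filter_upwards [eventually_gt_atTop 0] with n hn
    have hn0 : (0:ℝ) < n := by exact_mod_cast hn
    have hn6 : (0:ℝ) < ((n + 6 : ℕ):ℝ) := by positivity
    simp only [hf, Nat.add_sub_cancel]
    field_simp
    ring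
  refine ⟨L, ?_, hlim2⟩
  refine ge_of_tendsto hlim2 ?_
  filter_upwards [eventually_ge_atTop 3] with n hn
  exact div_nonneg (hφ n hn).1 (Nat.cast_nonneg n)

end RP.PkFEK
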