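import Pool.Agent.Helper26.RP.Goals

set_option autoImplicit false

noncomputable section

namespace RP.PkVIS

open MeasureTheory Filter Topology RP

/-- slope of the direction from `s` -/
def mm (s q : E) : ℝ := (q.2 - s.2) / (s.1 - q.1)

/-- inverse distance -/
def kk (s q : E) : ℝ := 1 / (s.1 - q.1)

/-- the height of the edge `a b` above `t` -/
def evf (s a b : E) (t : ℝ) : ℝ :=
  kk s a + (kk s b - kk s a) * ((t - mm s a) / (mm s b - mm s a))

lemma kk_pos {s q : E} (h : q.1 < s.1) : 0 < kk s q := by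
  unfold kk
  have : 0 < s.1 - q.1 := by linarith
  positivity

lemma inj {s p q : E} (hp : p.1 < s.1) (hq : q.1 < s.1) (h1 : mm s p = mm s q)
    (h2 : kk s p = kk s q) : p = q := by
  unfold mm at h1
  unfold kk at h2
  have hp' : 0 < s.1 - p.1 := by linarith
  have hq' : 0 < s.1 - q.1 := by linarith
  have h3 : s.1 - p.1 = s.1 - q.1 := by
    rw [div_eq_div_iff hp'.ne' hq'.ne'] at h2
    linarith
  rw [h3, div_left_inj' hq'.ne'] at h1
  exact Prod.ext (by linarith) (by linarith)

lemma segfwd {s a b p : E} (ha : a.1 < s.1) (hb : b.1 < s.1) (hp : p ∈ segment ℝ a b) :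
    p.1 < s.1 ∧ ∃ μ : ℝ, 0 ≤ μ ∧ μ ≤ 1 ∧ mm s p = (1 - μ) * mm s a + μ * mm s b ∧
      kk s p = (1 - μ) * kk s a + μ * kk s b := by
  obtain ⟨c, d, hc, hd, hcd, rfl⟩ := hp
  have hA : 0 < s.1 - a.1 := by linarith
  have hB : 0 < s.1 - b.1 := by linarith
  have hD : 0 < c * (s.1 - a.1) + d * (s.1 - b.1) := by
    rcases eq_or_lt_of_le hc with h | h
    · have : d = 1 := by linarith
      rw [← h, this]; linarith
    · have h1 : 0 < c * (s.1 - a.1) := mul_pos h hA
      have h2 : 0 ≤ d * (s.1 - b.1) := mul_nonneg hd hB.le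
      linarith
  have e1 : s.1 - (c • a + d • b).1 = c * (s.1 - a.1) + d * (s.1 - b.1) := by
    simp only [Prod.fst_add, Prod.smul_fst, smul_eq_mul]
    linear_combination (-s.1) * hcd
  have e2 : (c • a + d • b).2 - s.2 = c * (a.2 - s.2) + d * (b.2 - s.2) := by
    simp only [Prod.snd_add, Prod.smul_snd, smul_eq_mul]
    linear_combination (s.2) * hcd
  refine ⟨by linarith, d * (s.1 - b.1) / (c * (s.1 - a.1) + d * (s.1 - b.1)), ?_, ?_, ?_, ?_⟩
  · positivity
  · rw [div_le_one hD]
    have h1 : 0 ≤ c * (s.1 - a.1) := mul_nonneg hc hA.le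
    linarith
  · unfold mm
    rw [e1, e2]
    field_simp
    ring
  · unfold kk
    rw [e1]
    field_simp
    linear_combination (-(s.1 - a.1)) * hcd

lemma segbwd {s a b : E} (ha : a.1 < s.1) (hb : b.1 < s.1) {μ : ℝ} (h0 : 0 ≤ μ) (h1 : μ ≤ 1) :
    ∃ p ∈ segment ℝ a b, p.1 < s.1 ∧ mm s p = (1 - μ) * mm s a + μ * mm s b ∧
      kk s p = (1 - μ) * kk s a + μ * kk s b := by
  have hA : 0 < s.1 - a.1 := by linarith
  have hB : 0 < s.1 - b.1 := by linarith
  -- weights
  have hD : 0 < (1 - μ) * (s.1 - b.1) + μ * (s.1 - a.1) := by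
    rcases eq_or_lt_of_le h0 with h | h
    · rw [← h]; linarith
    · have h2 : 0 < μ * (s.1 - a.1) := mul_pos h hA
      have h3 : 0 ≤ (1 - μ) * (s.1 - b.1) := mul_nonneg (by linarith) hB.le
      linarith
  set D := (1 - μ) * (s.1 - b.1) + μ * (s.1 - a.1) with hDdef
  have hc : 0 ≤ (1 - μ) * (s.1 - b.1) / D := div_nonneg (mul_nonneg (by linarith) hB.le) hD.le
  have hd : 0 ≤ μ * (s.1 - a.1) / D := by positivity
  have hcd : (1 - μ) * (s.1 - b.1) / D + μ * (s.1 - a.1) / D = 1 := by
    rw [← add_div, ← hDdef, div_self hD.ne']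
  refine ⟨((1 - μ) * (s.1 - b.1) / D) • a + (μ * (s.1 - a.1) / D) • b,
    ⟨_, _, hc, hd, hcd, rfl⟩, ?_⟩
  have e1 : s.1 - (((1 - μ) * (s.1 - b.1) / D) • a + (μ * (s.1 - a.1) / D) • b).1 =
      (s.1 - a.1) * (s.1 - b.1) / D := by
    simp only [Prod.fst_add, Prod.smul_fst, smul_eq_mul]
    field_simp
    rw [hDdef]
    ring
  have e2 : (((1 - μ) * (s.1 - b.1) / D) • a + (μ * (s.1 - a.1) / D) • b).2 - s.2 =
      ((1 - μ) * (s.1 - b.1) * (a.2 - s.2) + μ * (s.1 - a.1) * (b.2 - s.2)) / D := by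
    simp only [Prod.snd_add, Prod.smul_snd, smul_eq_mul]
    field_simp
    rw [hDdef]
    ring
  refine ⟨?_, ?_, ?_⟩
  · have : 0 < (s.1 - a.1) * (s.1 - b.1) / D := by positivity
    linarith
  · unfold mm
    rw [e1, e2]
    field_simp
  · unfold kk
    rw [e1]
    field_simp
    rw [hDdef]
    ring

lemma evf_comb {s a b : E} (hab : mm s a ≠ mm s b) (μ : ℝ) :
    evf s a b ((1 - μ) * mm s a + μ * mm s b) = (1 - μ) * kk s a + μ * kk s b := by
  unfold evf
  have h : mm s b - mm s a ≠ 0 := sub_ne_zero.mpr hab.symm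
  have : ((1 - μ) * mm s a + μ * mm s b - mm s a) / (mm s b - mm s a) = μ := by
    field_simp
    ring
  rw [this]
  ring

lemma evf_left {s a b : E} (hab : mm s a ≠ mm s b) : evf s a b (mm s a) = kk s a := by
  have := evf_comb hab 0
  simpa using this

lemma evf_right {s a b : E} (hab : mm s a ≠ mm s b) : evf s a b (mm s b) = kk s b := by
  have := evf_comb hab 1
  simpa using this

lemma evf_affine (s a b : E) (τ t t' : ℝ) :
    evf s a b ((1 - τ) * t + τ * t') = (1 - τ) * evf s a b t + τ * evf s a b t' := by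
  unfold evf
  ring

/-- a point of the open interval is a strict convex combination -/
lemma exists_mu {p q t : ℝ} (hpq : p ≠ q) (h1 : min p q < t) (h2 : t < max p q) :
    ∃ μ : ℝ, 0 < μ ∧ μ < 1 ∧ t = (1 - μ) * p + μ * q := by
  have hne : q - p ≠ 0 := sub_ne_zero.mpr hpq.symm
  refine ⟨(t - p) / (q - p), ?_, ?_, ?_⟩
  · rcases lt_or_gt_of_ne hpq with h | h
    · rw [min_eq_left h.le] at h1
      exact div_pos (by linarith) (by linarith)
    · rw [max_eq_left h.le] at h2
      exact div_pos_of_neg_of_neg (by linarith) (by linarith)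
  · rcases lt_or_gt_of_ne hpq with h | h
    · rw [max_eq_right h.le] at h2
      rw [div_lt_one (by linarith)]
      linarith
    · rw [min_eq_right h.le] at h1
      rw [div_lt_one_of_neg (by linarith)]
      linarith
  · field_simp
    ring

lemma mem_open {p q μ : ℝ} (hpq : p ≠ q) (h0 : 0 < μ) (h1 : μ < 1) :
    min p q < (1 - μ) * p + μ * q ∧ (1 - μ) * p + μ * q < max p q := by
  rcases lt_or_gt_of_ne hpq with h | h
  · rw [min_eq_left h.le, max_eq_right h.le]
    constructor <;> nlinarith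
  · rw [min_eq_right h.le, max_eq_left h.le]
    constructor <;> nlinarith

/-- two affine functions agreeing at two points -/
lemma agree {s a b c d : E} {t0 t1 : ℝ} (h01 : t0 ≠ t1) (h0 : evf s a b t0 = evf s c d t0)
    (h1 : evf s a b t1 = evf s c d t1) (t : ℝ) : evf s a b t = evf s c d t := by
  have hne : t1 - t0 ≠ 0 := sub_ne_zero.mpr h01.symm
  have ht : t = (1 - (t - t0) / (t1 - t0)) * t0 + (t - t0) / (t1 - t0) * t1 := by
    field_simp
    ring
  rw [ht, evf_affine, evf_affine, h0, h1]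

/-- consistency -/
lemma consistent {s a b c d : E} (ha : a.1 < s.1) (hb : b.1 < s.1) (hc : c.1 < s.1)
    (hd : d.1 < s.1) (hab : mm s a ≠ mm s b) (hcd : mm s c ≠ mm s d) (hNX : NX a b c d)
    {t t' : ℝ} (h1 : min (mm s a) (mm s b) < t) (h2 : t < max (mm s a) (mm s b))
    (h3 : min (mm s c) (mm s d) < t) (h4 : t < max (mm s c) (mm s d))
    (h1' : min (mm s a) (mm s b) < t') (h2' : t' < max (mm s a) (mm s b))
    (h3' : min (mm s c) (mm s d) < t') (h4' : t' < max (mm s c) (mm s d))
    (hlt : evf s a b t < evf s c d t) : evf s a b t' < evf s c d t' := by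
  by_contra hcon
  have hcon := not_lt.mp hcon
  set g := evf s c d t - evf s a b t with hg
  set g' := evf s c d t' - evf s a b t' with hg'
  have hg0 : 0 < g := by rw [hg]; linarith
  have hg'0 : g' ≤ 0 := by rw [hg']; linarith
  set τ := g / (g - g') with hτ
  have hgg : 0 < g - g' := by linarith
  have hτ0 : 0 < τ := div_pos hg0 hgg
  have hτ1 : τ ≤ 1 := by rw [hτ, div_le_one hgg]; linarith
  set t2 := (1 - τ) * t + τ * t' with ht2
  have heq : evf s a b t2 = evf s c d t2 := by
    rw [ht2, evf_affine, evf_affine]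
    have : (1 - τ) * g + τ * g' = 0 := by
      rw [hτ]; field_simp; ring
    rw [hg, hg'] at this
    linarith
  have hconv : ∀ l : ℝ, l < t → l < t' → l < t2 := by
    intro l hl hl'
    rw [ht2]; nlinarith
  have hconv' : ∀ l : ℝ, t < l → t' < l → t2 < l := by
    intro l hl hl'
    rw [ht2]; nlinarith
  have k1 := hconv _ h1 h1'
  have k2 := hconv' _ h2 h2'
  have k3 := hconv _ h3 h3'
  have k4 := hconv' _ h4 h4'
  obtain ⟨μ, hμ0, hμ1, hμ⟩ := exists_mu hab k1 k2
  obtain ⟨ν, hν0, hν1, hν⟩ := exists_mu hcd k3 k4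
  obtain ⟨p, hp, hps, hpm, hpk⟩ := segbwd ha hb hμ0.le hμ1.le
  obtain ⟨q, hq, hqs, hqm, hqk⟩ := segbwd hc hd hν0.le hν1.le
  have hpq : p = q := by
    apply inj hps hqs
    · rw [hpm, hqm, ← hμ, ← hν]
    · rw [hpk, hqk, ← evf_comb hab, ← evf_comb hcd, ← hμ, ← hν, heq]
  have hne : ∀ e : ℝ, (e = mm s a ∨ e = mm s b) → e ≠ t2 := by
    rintro e (rfl | rfl) h
    · rw [hμ] at h
      have : μ * (mm s b - mm s a) = 0 := by linarith
      rcases mul_eq_zero.mp this with h5 | h5
      · linarith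
      · exact hab (by linarith)
    · rw [hμ] at h
      have : (1 - μ) * (mm s b - mm s a) = 0 := by linarith
      rcases mul_eq_zero.mp this with h5 | h5
      · linarith
      · exact hab (by linarith)
  rcases hNX with h | h
  · rcases h with h | h | h | h
    · refine absurd (agree (hne (mm s a) (Or.inl rfl)) ?_ heq t) hlt.ne
      subst h
      rw [evf_left hab, evf_left hcd]
    · refine absurd (agree (hne (mm s a) (Or.inl rfl)) ?_ heq t) hlt.ne
      subst h
      rw [evf_left hab, evf_right hcd]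
    · refine absurd (agree (hne (mm s b) (Or.inr rfl)) ?_ heq t) hlt.ne
      subst h
      rw [evf_right hab, evf_left hcd]
    · refine absurd (agree (hne (mm s b) (Or.inr rfl)) ?_ heq t) hlt.ne
      subst h
      rw [evf_right hab, evf_right hcd]
  · rw [Set.disjoint_left] at h
    exact h hp (hpq ▸ hq)

/-- the main step: an endpoint `v` of the top edge sees `s` behind the edge `c d` -/
lemma sees {s v v' c d : E} {ev : ℝ → ℝ} (hv : v.1 < s.1) (hc : c.1 < s.1)
    (hd : d.1 < s.1) (hvc : mm s v ≠ mm s c) (hvd : mm s v ≠ mm s d) (hcd : mm s c ≠ mm s d)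
    (hvv : mm s v ≠ mm s v') (hor : orient c d v ≠ 0) (hev : Continuous ev)
    (hevv : ev (mm s v) = kk s v)
    (htop : ∀ t, min (mm s v) (mm s v') < t → t < max (mm s v) (mm s v') →
      min (mm s c) (mm s d) < t → t < max (mm s c) (mm s d) → ¬ ev t < evf s c d t) :
    Disjoint (segment ℝ s v) (segment ℝ c d) := by
  rw [Set.disjoint_left]
  rintro p hp1 hp2
  obtain ⟨hps, μ, hμ0, hμ1, hpm, hpk⟩ := segfwd hc hd hp2
  obtain ⟨α, θ, hα, hθ, hαθ, hp⟩ := hp1
  have hA : 0 < s.1 - v.1 := by linarith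
  have e1 : s.1 - p.1 = θ * (s.1 - v.1) := by
    rw [← hp]
    simp only [Prod.fst_add, Prod.smul_fst, smul_eq_mul]
    linear_combination (-s.1) * hαθ
  have e2 : p.2 - s.2 = θ * (v.2 - s.2) := by
    rw [← hp]
    simp only [Prod.snd_add, Prod.smul_snd, smul_eq_mul]
    linear_combination (s.2) * hαθ
  have hθ0 : 0 < θ := by
    rcases eq_or_lt_of_le hθ with h | h
    · rw [← h] at e1
      linarith
    · exact h
  have hθ1 : θ ≤ 1 := by linarith
  have hpmv : mm s p = mm s v := by
    unfold mm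
    rw [e1, e2, mul_div_mul_left _ _ hθ0.ne']
  have hpkv : kk s p = kk s v / θ := by
    unfold kk
    rw [e1]
    field_simp
  have hkv := kk_pos hv
  -- `μ` is strictly between
  have hμ0' : 0 < μ := by
    rcases eq_or_lt_of_le hμ0 with h | h
    · rw [← h] at hpm
      exact absurd (by rw [← hpmv, hpm]; ring) hvc
    · exact h
  have hμ1' : μ < 1 := by
    rcases eq_or_lt_of_le hμ1 with h | h
    · rw [h] at hpm
      exact absurd (by rw [← hpmv, hpm]; ring) hvd
    · exact h
  have hin := mem_open hcd hμ0' hμ1'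
  rw [← hpm, hpmv] at hin
  have hevj : evf s c d (mm s v) = kk s v / θ := by
    rw [← hpmv, hpm, evf_comb hcd, ← hpk, hpkv]
  have hθlt : θ < 1 := by
    rcases eq_or_lt_of_le hθ1 with h | h
    · exfalso
      have hα0 : α = 0 := by linarith
      rw [h, hα0] at hp
      simp only [zero_smul, one_smul, zero_add] at hp
      rw [← hp] at hp2
      obtain ⟨c1, d1, -, -, hcd1, hv1⟩ := hp2
      apply hor
      rw [← hv1]
      unfold orient
      simp only [Prod.fst_add, Prod.smul_fst, Prod.snd_add, Prod.smul_snd, smul_eq_mul]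
      have : c1 = 1 - d1 := by linarith
      rw [this]
      ring
    · exact h
  have hgt : ev (mm s v) < evf s c d (mm s v) := by
    rw [hevv, hevj, lt_div_iff₀ hθ0]
    nlinarith
  -- move a little
  have hcont : Continuous (evf s c d) := by
    unfold evf
    fun_prop
  have hopen : IsOpen {t : ℝ | ev t < evf s c d t ∧ min (mm s c) (mm s d) < t ∧
      t < max (mm s c) (mm s d)} :=
    (isOpen_lt hev hcont).inter ((isOpen_lt continuous_const continuous_id).inter
      (isOpen_lt continuous_id continuous_const))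
  have hmem : mm s v ∈ {t : ℝ | ev t < evf s c d t ∧ min (mm s c) (mm s d) < t ∧
      t < max (mm s c) (mm s d)} := ⟨hgt, hin.1, hin.2⟩
  have hpath : Continuous fun ε : ℝ => (1 - ε) * mm s v + ε * mm s v' := by fun_prop
  have hnh : ∀ᶠ ε : ℝ in 𝓝 0, (1 - ε) * mm s v + ε * mm s v' ∈
      {t : ℝ | ev t < evf s c d t ∧ min (mm s c) (mm s d) < t ∧ t < max (mm s c) (mm s d)} := by
    refine hpath.continuousAt.eventually_mem ?_
    have : (1 - (0:ℝ)) * mm s v + 0 * mm s v' = mm s v := by ring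
    rw [this]
    exact hopen.mem_nhds hmem
  have hnh2 : ∀ᶠ ε : ℝ in 𝓝[>] 0, (1 - ε) * mm s v + ε * mm s v' ∈
      {t : ℝ | ev t < evf s c d t ∧ min (mm s c) (mm s d) < t ∧ t < max (mm s c) (mm s d)} :=
    hnh.filter_mono nhdsWithin_le_nhds
  have hlt1 : ∀ᶠ ε : ℝ in 𝓝[>] 0, ε < 1 :=
    (eventually_lt_nhds zero_lt_one).filter_mono nhdsWithin_le_nhds
  obtain ⟨ε, ⟨h1, h2⟩, h3⟩ := ((hnh2.and hlt1).and self_mem_nhdsWithin).exists
  obtain ⟨h4, h5, h6⟩ := h1
  have h7 := mem_open hvv h3 h2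
  exact htop _ h7.1 h7.2 h5 h6 h4

theorem vis : G_TOP → G_VIS := by
  intro hTOP n s x hn hx hGP hCl
  have hmm : ∀ i j : Fin n, i ≠ j → mm s (x i) ≠ mm s (x j) := by
    intro i j hij h
    have h1 := hGP 0 i.succ j.succ (Fin.succ_ne_zero i).symm
      (fun h2 => hij (Fin.succ_injective _ h2)) (Fin.succ_ne_zero j).symm
    apply h1
    simp only [Fin.cons_zero, Fin.cons_succ]
    have hi := hx i
    have hj := hx j
    have hA : 0 < s.1 - (x i).1 := by linarith
    have hB : 0 < s.1 - (x j).1 := by linarith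
    unfold mm at h
    rw [div_eq_div_iff hA.ne' hB.ne'] at h
    unfold orient
    linear_combination h
  have hS : ∀ i : Fin n, finRotate n i ≠ i := by
    intro i
    have h := support_finRotate_of_le (n := n) (by omega)
    have : i ∈ (finRotate n).support := by rw [h]; exact Finset.mem_univ i
    exact Equiv.Perm.mem_support.mp this
  obtain ⟨i, -, hi⟩ := hTOP (Fin n) Finset.univ
    (fun j => min (mm s (x j)) (mm s (x (finRotate n j))))
    (fun j => max (mm s (x j)) (mm s (x (finRotate n j))))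
    (fun j => evf s (x j) (x (finRotate n j)))
    ⟨⟨0, by omega⟩, Finset.mem_univ _⟩
    (fun j _ => min_lt_max.mpr (hmm _ _ (hS j).symm))
    (fun e _ f _ t t' h1 h2 h3 h4 h1' h2' h3' h4' hlt =>
      consistent (hx _) (hx _) (hx _) (hx _) (hmm _ _ (hS e).symm) (hmm _ _ (hS f).symm)
        (hCl.2 e f) h1 h2 h3 h4 h1' h2' h3' h4' hlt)
  have hi' : ∀ j t, min (mm s (x i)) (mm s (x (finRotate n i))) < t →
      t < max (mm s (x i)) (mm s (x (finRotate n i))) →
      min (mm s (x j)) (mm s (x (finRotate n j))) < t →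
      t < max (mm s (x j)) (mm s (x (finRotate n j))) →
      ¬ evf s (x i) (x (finRotate n i)) t < evf s (x j) (x (finRotate n j)) t :=
    fun j t h1 h2 h3 h4 => hi j (Finset.mem_univ j) t h1 h2 h3 h4
  have hev : Continuous (evf s (x i) (x (finRotate n i))) := by
    unfold evf
    fun_prop
  have hor : ∀ j k : Fin n, k ≠ j → k ≠ finRotate n j →
      orient (x j) (x (finRotate n j)) (x k) ≠ 0 := fun j k h1 h2 =>
    hCl.1 j (finRotate n j) k (hS j).symm h2.symm h1.symm
  refine ⟨i, fun j => ⟨?_, ?_⟩⟩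
  · by_cases h1 : i = j
    · left; right; right; left; rw [h1]
    by_cases h2 : i = finRotate n j
    · left; right; right; right; exact congrArg x h2
    right
    exact sees (hx i) (hx j) (hx _) (hmm _ _ h1) (hmm _ _ h2) (hmm _ _ (hS j).symm)
      (hmm _ _ (hS i).symm) (hor j i h1 h2) hev (evf_left (hmm _ _ (hS i).symm)) (hi' j)
  · by_cases h1 : finRotate n i = j
    · left; right; right; left; rw [h1]
    by_cases h2 : finRotate n i = finRotate n j
    · left; right; right; right; rw [h2]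
    right
    refine sees (v' := x i) (hx _) (hx j) (hx _) (hmm _ _ h1) (hmm _ _ h2) (hmm _ _ (hS j).symm)
      (hmm _ _ (hS i)) (hor j _ h1 h2) hev (evf_right (hmm _ _ (hS i).symm)) ?_
    intro t k1 k2
    rw [min_comm] at k1
    rw [max_comm] at k2
    exact hi' j t k1 k2

end RP.PkVIS
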